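import Pool.Agent.TH192.DT.MotZ

/-! # Rational power series: polynomials over products of factors; Hadamard products -/

set_option autoImplicit false

namespace Pool.Agent.D0H96.TS

open Pool.Agent.TH192.DT

variable {R : Type} [CommRing R] (u : Rˣ)

/-- The factor `1 - u ^ a X ^ b`. -/
noncomputable def fac (p : ℤ × ℤ) : PowerSeries R :=
  1 - PowerSeries.C ((u ^ p.1 : Rˣ) : R) * PowerSeries.X ^ p.2.toNat

theorem fac_geo (p : ℤ × ℤ) (hp : 0 < p.2) : fac u p * geoU u p.1 p.2 = 1 := by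
  unfold geoU fac
  refine PowerSeries.mul_invOfUnit _ 1 ?_
  have hb' : p.2.toNat ≠ 0 := by omega
  simp [hb']

theorem geo_mem {D : Set (ℤ × ℤ)} {p : ℤ × ℤ} (hp : p ∈ D) : geoU u p.1 p.2 ∈ ratU u D :=
  Algebra.subset_adjoin (Or.inr ⟨p, hp, rfl⟩)

theorem X_mem (D : Set (ℤ × ℤ)) : (PowerSeries.X : PowerSeries R) ∈ ratU u D :=
  Algebra.subset_adjoin (Or.inl rfl)

theorem C_mem (D : Set (ℤ × ℤ)) (c : R) : (PowerSeries.C c : PowerSeries R) ∈ ratU u D :=
  Subalgebra.algebraMap_mem _ c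

theorem poly_mem (D : Set (ℤ × ℤ)) (P : Polynomial R) : (P : PowerSeries R) ∈ ratU u D := by
  induction P using Polynomial.induction_on' with
  | add p q hp hq =>
    rw [Polynomial.coe_add]
    exact Subalgebra.add_mem _ hp hq
  | monomial n a =>
    rw [← Polynomial.C_mul_X_pow_eq_monomial, Polynomial.coe_mul, Polynomial.coe_pow,
      Polynomial.coe_C, Polynomial.coe_X]
    exact Subalgebra.mul_mem _ (C_mem u D a) (Subalgebra.pow_mem _ (X_mem u D) _)

/-- The factor is a polynomial. -/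
theorem fac_poly (p : ℤ × ℤ) : ∃ P : Polynomial R, fac u p = (P : PowerSeries R) := by
  refine ⟨1 - Polynomial.C ((u ^ p.1 : Rˣ) : R) * Polynomial.X ^ p.2.toNat, ?_⟩
  unfold fac
  rw [Polynomial.coe_sub, Polynomial.coe_mul, Polynomial.coe_pow, Polynomial.coe_C,
    Polynomial.coe_X, Polynomial.coe_one]

theorem prod_poly (L : List (ℤ × ℤ)) :
    ∃ P : Polynomial R, (L.map (fac u)).prod = (P : PowerSeries R) := by
  induction L with
  | nil => exact ⟨1, by simp⟩
  | cons p L ih =>
    obtain ⟨P, hP⟩ := ih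
    obtain ⟨Q, hQ⟩ := fac_poly u p
    exact ⟨Q * P, by rw [List.map_cons, List.prod_cons, hP, hQ, Polynomial.coe_mul]⟩

/-- `F` is a polynomial over the product of the factors of the list `L`. -/
def Den (L : List (ℤ × ℤ)) (F : PowerSeries R) : Prop :=
  ∃ P : Polynomial R, (L.map (fac u)).prod * F = (P : PowerSeries R)

theorem den_mem {D : Set (ℤ × ℤ)} (hD : ∀ q ∈ D, 0 < q.2) :
    ∀ (L : List (ℤ × ℤ)), (∀ p ∈ L, p ∈ D) → ∀ F : PowerSeries R, Den u L F → F ∈ ratU u D := by
  intro L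
  induction L with
  | nil =>
    rintro - F ⟨P, hP⟩
    simp only [List.map_nil, List.prod_nil, one_mul] at hP
    rw [hP]
    exact poly_mem u D P
  | cons p L ih =>
    rintro hL F ⟨P, hP⟩
    have hp : p ∈ D := hL p List.mem_cons_self
    have h1 : Den u L (fac u p * F) := by
      refine ⟨P, ?_⟩
      rw [← hP, List.map_cons, List.prod_cons]
      ring
    have h2 := ih (fun q hq => hL q (List.mem_cons_of_mem _ hq)) _ h1
    have h3 : F = geoU u p.1 p.2 * (fac u p * F) := by
      rw [← mul_assoc, mul_comm (geoU u p.1 p.2), fac_geo u p (hD p hp), one_mul]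
    rw [h3]
    exact Subalgebra.mul_mem _ (geo_mem u hp) h2

theorem mem_den {D : Set (ℤ × ℤ)} (hD : ∀ q ∈ D, 0 < q.2) (F : PowerSeries R)
    (hF : F ∈ ratU u D) : ∃ L : List (ℤ × ℤ), (∀ p ∈ L, p ∈ D) ∧ Den u L F := by
  unfold ratU at hF
  induction hF using Algebra.adjoin_induction with
  | mem x hx =>
    rcases hx with hx | ⟨p, hp, rfl⟩
    · refine ⟨[], by simp, Polynomial.X, ?_⟩
      rw [Set.mem_singleton_iff] at hx
      rw [hx]
      simp
    · refine ⟨[p], by simpa using hp, 1, ?_⟩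
      simp only [List.map_cons, List.map_nil, List.prod_cons, List.prod_nil, mul_one]
      rw [fac_geo u p (hD p hp)]
      simp
  | algebraMap r =>
    refine ⟨[], by simp, Polynomial.C r, ?_⟩
    simp only [List.map_nil, List.prod_nil, one_mul, Polynomial.coe_C]
    rfl
  | add x y _ _ hx hy =>
    obtain ⟨L, hL, P, hP⟩ := hx
    obtain ⟨L', hL', P', hP'⟩ := hy
    obtain ⟨a, ha⟩ := prod_poly u L
    obtain ⟨b, hb⟩ := prod_poly u L'
    refine ⟨L ++ L', ?_, b * P + a * P', ?_⟩
    · intro p hp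
      rcases List.mem_append.1 hp with h | h
      · exact hL p h
      · exact hL' p h
    · rw [List.map_append, List.prod_append, Polynomial.coe_add, Polynomial.coe_mul,
        Polynomial.coe_mul, ← hP, ← hP', ← ha, ← hb]
      ring
  | mul x y _ _ hx hy =>
    obtain ⟨L, hL, P, hP⟩ := hx
    obtain ⟨L', hL', P', hP'⟩ := hy
    refine ⟨L ++ L', ?_, P * P', ?_⟩
    · intro p hp
      rcases List.mem_append.1 hp with h | h
      · exact hL p h
      · exact hL' p h
    · rw [List.map_append, List.prod_append, Polynomial.coe_mul, ← hP, ← hP']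
      ring

/-- The factor `X` can be removed. -/
theorem X_cancel {D : Set (ℤ × ℤ)} (hD : ∀ q ∈ D, 0 < q.2) (F : PowerSeries R)
    (hF : PowerSeries.X * F ∈ ratU u D) : F ∈ ratU u D := by
  obtain ⟨L, hL, P, hP⟩ := mem_den u hD _ hF
  refine den_mem u hD L hL F ⟨P.divX, ?_⟩
  ext n
  have h1 := congrArg (PowerSeries.coeff (n + 1)) hP
  rw [show (L.map (fac u)).prod * (PowerSeries.X * F) =
    PowerSeries.X * ((L.map (fac u)).prod * F) by ring, PowerSeries.coeff_succ_X_mul,
    Polynomial.coeff_coe] at h1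
  rw [h1, Polynomial.coeff_coe, Polynomial.coeff_divX]

/-- The Hadamard product. -/
noncomputable def had (F G : PowerSeries R) : PowerSeries R :=
  PowerSeries.mk fun N => PowerSeries.coeff N F * PowerSeries.coeff N G

theorem coeff_had (F G : PowerSeries R) (n : ℕ) : PowerSeries.coeff n (had F G) =
    PowerSeries.coeff n F * PowerSeries.coeff n G := PowerSeries.coeff_mk _ _

theorem had_poly_left (D : Set (ℤ × ℤ)) (P : Polynomial R) (G : PowerSeries R) :
    had (P : PowerSeries R) G ∈ ratU u D := by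
  have h : had (P : PowerSeries R) G = ((∑ n ∈ Finset.range (P.natDegree + 1),
      Polynomial.C (P.coeff n * PowerSeries.coeff n G) * Polynomial.X ^ n : Polynomial R) :
        PowerSeries R) := by
    ext n
    rw [coeff_had, Polynomial.coeff_coe, Polynomial.coeff_coe, Polynomial.finsetSum_coeff]
    simp only [Polynomial.coeff_C_mul, Polynomial.coeff_X_pow]
    rw [Finset.sum_eq_single n]
    · simp
    · intro m _ hm
      rw [if_neg (Ne.symm hm), mul_zero]
    · intro hn
      rw [Finset.mem_range, not_lt] at hn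
      rw [Polynomial.coeff_eq_zero_of_natDegree_lt (by omega)]
      simp
  rw [h]
  exact poly_mem u D _

theorem had_comm (F G : PowerSeries R) : had F G = had G F := by
  ext n
  rw [coeff_had, coeff_had, mul_comm]

/-- The main identity. -/
theorem had_id (F G : PowerSeries R) (a b : R) (l : ℕ) :
    (1 - PowerSeries.C (a * b) * PowerSeries.X ^ l) * had F G =
      had ((1 - PowerSeries.C a * PowerSeries.X ^ l) * F) G +
      had (PowerSeries.C a * PowerSeries.X ^ l * F) ((1 - PowerSeries.C b * PowerSeries.X ^ l) * G) := by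
  ext n
  rw [map_add, coeff_had, coeff_had]
  simp only [sub_mul, one_mul, map_sub, mul_assoc, PowerSeries.coeff_C_mul,
    PowerSeries.coeff_X_pow_mul', coeff_had]
  split_ifs with h
  · ring
  · ring

/-- The factor for a multiple. -/
theorem fac_dvd (p : ℤ × ℤ) (k : ℕ) : ∃ Q : Polynomial R,
    1 - PowerSeries.C ((u ^ (p.1 * k) : Rˣ) : R) * PowerSeries.X ^ (p.2.toNat * k) =
      (Q : PowerSeries R) * fac u p := by
  obtain ⟨x, hx⟩ : ∃ x : Polynomial R, x = Polynomial.C ((u ^ p.1 : Rˣ) : R) *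
    Polynomial.X ^ p.2.toNat := ⟨_, rfl⟩
  have hxc : (x : PowerSeries R) = PowerSeries.C ((u ^ p.1 : Rˣ) : R) *
      PowerSeries.X ^ p.2.toNat := by
    rw [hx, Polynomial.coe_mul, Polynomial.coe_pow, Polynomial.coe_C, Polynomial.coe_X]
  refine ⟨∑ i ∈ Finset.range k, x ^ i, ?_⟩
  have h1 : (∑ i ∈ Finset.range k, x ^ i) * (1 - x) = 1 - x ^ k := by
    have := geom_sum_mul x k
    linear_combination -this
  have h2 : fac u p = ((1 - x : Polynomial R) : PowerSeries R) := by
    unfold fac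
    rw [Polynomial.coe_sub, Polynomial.coe_one, hxc]
  rw [h2, ← Polynomial.coe_mul, h1, Polynomial.coe_sub, Polynomial.coe_one, Polynomial.coe_pow,
    hxc, mul_pow, ← map_pow, ← pow_mul, zpow_mul, zpow_natCast, Units.val_pow_eq_pow_val]

/-- Hadamard products of rational series. -/
theorem had_mem {D D' E : Set (ℤ × ℤ)} (hD : ∀ q ∈ D, 0 < q.2) (hD' : ∀ q ∈ D', 0 < q.2)
    (hE : ∀ p ∈ D, ∀ p' ∈ D', (p.1 * ((Int.lcm p.2 p'.2 : ℤ) / p.2) +
      p'.1 * ((Int.lcm p.2 p'.2 : ℤ) / p'.2), (Int.lcm p.2 p'.2 : ℤ)) ∈ E) :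
    ∀ (n : ℕ) (L L' : List (ℤ × ℤ)), L.length + L'.length = n → (∀ p ∈ L, p ∈ D) →
      (∀ p ∈ L', p ∈ D') → ∀ F G : PowerSeries R, Den u L F → Den u L' G →
      had F G ∈ ratU u E := by
  intro n
  induction n with
  | zero =>
    rintro L L' hn hL hL' F G ⟨P, hP⟩ -
    have : L = [] := List.length_eq_zero_iff.1 (by omega)
    rw [this] at hP
    simp only [List.map_nil, List.prod_nil, one_mul] at hP
    rw [hP]
    exact had_poly_left u E P G
  | succ n ih =>
    rintro L L' hn hL hL' F G ⟨P, hP⟩ ⟨Q, hQ⟩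
    rcases L with _ | ⟨p, L⟩
    · simp only [List.map_nil, List.prod_nil, one_mul] at hP
      rw [hP]
      exact had_poly_left u E P G
    rcases L' with _ | ⟨q, L'⟩
    · simp only [List.map_nil, List.prod_nil, one_mul] at hQ
      rw [hQ, had_comm]
      exact had_poly_left u E Q F
    have hpD : p ∈ D := hL p List.mem_cons_self
    have hqD : q ∈ D' := hL' q List.mem_cons_self
    have hp := hD p hpD
    have hq := hD' q hqD
    have hEE := hE p hpD q hqD
    obtain ⟨l, hl⟩ : ∃ l : ℕ, l = Int.lcm p.2 q.2 := ⟨_, rfl⟩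
    rw [← hl] at hEE
    have hl1 : p.2 ∣ (l : ℤ) := by rw [hl]; exact Int.dvd_lcm_left _ _
    have hl2 : q.2 ∣ (l : ℤ) := by rw [hl]; exact Int.dvd_lcm_right _ _
    have hl0 : 0 < l := by
      rw [hl]
      exact Int.lcm_pos hp.ne' hq.ne'
    obtain ⟨k, hk⟩ : ∃ k : ℕ, (k : ℤ) = (l : ℤ) / p.2 :=
      ⟨((l : ℤ) / p.2).toNat, Int.toNat_of_nonneg (Int.ediv_nonneg (by positivity) hp.le)⟩
    obtain ⟨k', hk'⟩ : ∃ k' : ℕ, (k' : ℤ) = (l : ℤ) / q.2 :=
      ⟨((l : ℤ) / q.2).toNat, Int.toNat_of_nonneg (Int.ediv_nonneg (by positivity) hq.le)⟩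
    rw [← hk, ← hk'] at hEE
    have hlk : l = p.2.toNat * k := by
      have h1 : p.2 * (k : ℤ) = l := by rw [hk, Int.mul_ediv_cancel' hl1]
      have h2 : ((p.2.toNat * k : ℕ) : ℤ) = l := by
        push_cast
        rw [Int.toNat_of_nonneg hp.le, h1]
      exact_mod_cast h2.symm
    have hlk' : l = q.2.toNat * k' := by
      have h1 : q.2 * (k' : ℤ) = l := by rw [hk', Int.mul_ediv_cancel' hl2]
      have h2 : ((q.2.toNat * k' : ℕ) : ℤ) = l := by
        push_cast
        rw [Int.toNat_of_nonneg hq.le, h1]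
      exact_mod_cast h2.symm
    obtain ⟨A, hA⟩ := fac_dvd u p k
    obtain ⟨B, hB⟩ := fac_dvd u q k'
    rw [← hlk] at hA
    rw [← hlk'] at hB
    have hid := had_id F G ((u ^ (p.1 * k) : Rˣ) : R) ((u ^ (q.1 * k') : Rˣ) : R) l
    have hab : ((u ^ (p.1 * k) : Rˣ) : R) * ((u ^ (q.1 * k') : Rˣ) : R) =
        ((u ^ (p.1 * k + q.1 * k') : Rˣ) : R) := by
      rw [zpow_add, Units.val_mul]
    rw [hab] at hid
    have hT : 1 - PowerSeries.C ((u ^ (p.1 * k + q.1 * k') : Rˣ) : R) * PowerSeries.X ^ l =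
        fac u (p.1 * k + q.1 * k', (l : ℤ)) := by
      unfold fac
      simp only [Int.toNat_natCast]
    rw [hT] at hid
    have hmem : fac u (p.1 * k + q.1 * k', (l : ℤ)) * had F G ∈ ratU u E := by
      rw [hid]
      simp only [List.length_cons] at hn
      refine Subalgebra.add_mem _ ?_ ?_
      · refine ih L (q :: L') (by simp only [List.length_cons]; omega)
          (fun x hx => hL x (List.mem_cons_of_mem _ hx)) hL' _ _ ⟨A * P, ?_⟩ ⟨Q, hQ⟩
        rw [hA, Polynomial.coe_mul, ← hP, List.map_cons, List.prod_cons]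
        ring
      · refine ih (p :: L) L' (by simp only [List.length_cons]; omega) hL
          (fun x hx => hL' x (List.mem_cons_of_mem _ hx)) _ _
          ⟨Polynomial.C ((u ^ (p.1 * k) : Rˣ) : R) * Polynomial.X ^ l * P, ?_⟩ ⟨B * Q, ?_⟩
        · rw [Polynomial.coe_mul, Polynomial.coe_mul, Polynomial.coe_pow, Polynomial.coe_C,
            Polynomial.coe_X, ← hP]
          ring
        · rw [hB, Polynomial.coe_mul, ← hQ, List.map_cons, List.prod_cons]
          ring
    have h3 : had F G = geoU u (p.1 * k + q.1 * k') (l : ℤ) *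
        (fac u (p.1 * k + q.1 * k', (l : ℤ)) * had F G) := by
      have h4 := fac_geo u (p.1 * k + q.1 * k', (l : ℤ)) (by
        change (0 : ℤ) < (l : ℤ)
        exact_mod_cast hl0)
      rw [← mul_assoc, mul_comm (geoU u _ _), h4, one_mul]
    have h5 : geoU u (p.1 * k + q.1 * k') (l : ℤ) ∈ ratU u E := by
      have h6 := @geo_mem R _ u E (p.1 * k + q.1 * k', (l : ℤ)) hEE
      exact h6
    rw [h3]
    exact (ratU u E).mul_mem h5 hmem

end Pool.Agent.D0H96.TS
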