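import Pool.Agent.D0H67.TS.Stm
import Pool.Agent.D0H96.TS.Base

/-! # TS modules HAD, DROP, PRODT (for helper67) -/

set_option autoImplicit false

namespace Pool.Agent.D0H96.TS

open Pool.Agent.TH192.DT Pool.Agent.D0H67.TS

/-- Module HAD. -/
theorem t_HAD : S_HAD := by
  intro R _ u D D' hD hD' F hF G hG
  obtain ⟨L, hL, hLF⟩ := mem_den u hD F hF
  obtain ⟨L', hL', hLG⟩ := mem_den u hD' G hG
  exact had_mem u hD hD' (E := addD D D') (fun p hp p' hp' => ⟨p, hp, p', hp', rfl⟩) _ L L' rfl hL
    hL' F G hLF hLG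

theorem geo_one {R : Type} [CommRing R] :
    (1 - PowerSeries.X : PowerSeries R) * PowerSeries.mk (fun _ => 1) = 1 := by
  rw [mul_comm]
  exact PowerSeries.mk_one_mul_one_sub_eq_one R

/-- Module DROP. -/
theorem t_DROP : S_DROP := by
  intro R _ u D hD c F hF
  refine X_cancel u hD F ?_
  have h1 : PowerSeries.X * F = PowerSeries.C c - (1 - PowerSeries.X) * tl c F := by
    unfold tl
    have h2 := geo_one (R := R)
    linear_combination (PowerSeries.C c - PowerSeries.X * F) * h2
  rw [h1]
  exact (ratU u D).sub_mem (C_mem u D c)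
    ((ratU u D).mul_mem ((ratU u D).sub_mem (ratU u D).one_mem (X_mem u D)) hF)

/-- Module PRODT. -/
theorem t_PRODT : S_DROP → S_PRODT := by
  intro hDrop R _ u D hD F G hF hG
  have hG' := hDrop u D hD 1 G hG
  have h1 : tl 1 (F * G) = (tl 1 G - G) + tl 1 F * G := by
    unfold tl
    have h2 := geo_one (R := R)
    rw [map_one]
    linear_combination (-G) * h2
  rw [h1]
  exact (ratU u D).add_mem ((ratU u D).sub_mem hG hG') ((ratU u D).mul_mem hF hG')

end Pool.Agent.D0H96.TS
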